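import Pool.Agent.Helper75.CR.St

/-! # Project CR (MP_265e56_al), module B: type one congruences only see the first letter -/

set_option autoImplicit false

namespace Pool.Agent.Helper80.CR

open Pool.Agent.Helper75.CR Helper1.IM

theorem hB : StB := by
  intro B S θ ρ hθ hle hAA a s t hst
  rcases eq_or_ne s [] with rfl | hs
  · have h : cn t ⊆ cn ([a] : Wo B) := by
      rw [hst, cn_cons]
      exact Finset.subset_insert _ _
    have := hθ.extρ hle (u := [a]) (t := t) (by simp) h
    simpa using this
  rcases eq_or_ne t [] with rfl | ht
  · have h : cn s ⊆ cn ([a] : Wo B) := by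
      rw [← hst, cn_cons]
      exact Finset.subset_insert _ _
    have := hθ.extρ hle (u := [a]) (t := s) (by simp) h
    exact Er.symm (by simpa using this)
  have h1 : Er ρ (a :: s) (a :: s ++ t) := by
    apply hθ.extρ hle (by simp)
    rw [hst, cn_cons]
    exact Finset.subset_insert _ _
  have h2 : Er ρ (a :: t) (a :: t ++ s) := by
    apply hθ.extρ hle (by simp)
    rw [← hst, cn_cons]
    exact Finset.subset_insert _ _
  have h3 : Er ρ (a :: s ++ t) (a :: t ++ s) := by
    simpa using hAA [a] s t (by simp) hs ht
  exact (h1.trans h3).trans h2.symm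

end Pool.Agent.Helper80.CR
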